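import Mathlib

/-!
Congruences and the substitution `x ↦ ± x ^ ℓ`.
-/

namespace Pool.Agent.U152.HN

open Polynomial

/-- Powers of a prime and an operator. -/
lemma step {S : Type*} [CommRing S] (ℓ : ℕ) (hℓ : (ℓ : S) ∈ nonZeroDivisors S) (ψ : S →+* S) (u : S)
    (hu : ∀ d : S, (ℓ : S) ∣ ψ d * u → (ℓ : S) ∣ d) (k : ℕ) (hk : 1 ≤ k) (f g F G : S)
    (h : (ℓ : S) ^ k ∣ f - g) (h' : (ℓ : S) ^ k ∣ F - G)
    (hF : (ℓ : S) * F = (f ^ ℓ + (ℓ - 1) * ψ f) * u)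
    (hG : (ℓ : S) * G = (g ^ ℓ + (ℓ - 1) * ψ g) * u) : (ℓ : S) ^ (k + 1) ∣ f - g := by
  obtain ⟨d, hd⟩ := h
  obtain ⟨e, he⟩ := h'
  have h1 : (ℓ : S) ∣ f - g := by
    rw [hd]
    exact Dvd.dvd.mul_right (dvd_pow_self _ (by omega)) _
  have h2 : (ℓ : S) ∣ ∑ i ∈ Finset.range ℓ, f ^ i * g ^ (ℓ - 1 - i) := dvd_geom_sum₂_self h1
  obtain ⟨m, hm⟩ := h2
  have h3 : f ^ ℓ - g ^ ℓ = (ℓ : S) ^ (k + 1) * (d * m) := by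
    rw [← (Commute.all f g).mul_geom_sum₂, hd, hm]
    ring
  have h4 : ψ f - ψ g = (ℓ : S) ^ k * ψ d := by
    rw [← map_sub, hd, map_mul, map_pow, map_natCast]
  have h5 : (ℓ : S) ^ k * ((ℓ : S) * e) =
      (ℓ : S) ^ k * ((ℓ : S) * (d * m) * u + (ℓ - 1) * ψ d * u) := by
    have : (ℓ : S) * (F - G) = (f ^ ℓ - g ^ ℓ) * u + (ℓ - 1) * (ψ f - ψ g) * u := by
      rw [mul_sub, hF, hG]
      ring
    rw [he, h3, h4] at this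
    linear_combination this
  have h6 : (ℓ : S) ^ k ∈ nonZeroDivisors S := pow_mem hℓ k
  have h7 : (ℓ : S) * e = (ℓ : S) * (d * m) * u + (ℓ - 1) * ψ d * u :=
    (mul_cancel_left_mem_nonZeroDivisors h6).1 h5
  have h8 : (ℓ : S) ∣ ψ d * u := ⟨d * m * u + ψ d * u - e, by linear_combination h7⟩
  obtain ⟨z, hz⟩ := hu d h8
  exact ⟨z, by rw [hd, hz]; ring⟩

/-- The sign `(-1) ^ (ℓ - 1)`. -/
def sgn (ℓ : ℕ) : ℤ := (-1) ^ (ℓ - 1)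

/-- The substitution `F(t) ↦ F(± t ^ ℓ)`. -/
noncomputable def sub1 (ℓ : ℕ) : ℤ[X] →+* ℤ[X] :=
  eval₂RingHom (Int.castRingHom ℤ[X]) (C (sgn ℓ) * X ^ ℓ)

/-- The substitution `F(x, y) ↦ F(± x ^ ℓ, ± y ^ ℓ)`, with the sign `(-1) ^ (ℓ - 1)`
(`x` is the inner variable). -/
noncomputable def sub2 (ℓ : ℕ) : ℤ[X][X] →+* ℤ[X][X] :=
  eval₂RingHom (eval₂RingHom (Int.castRingHom ℤ[X][X]) (C (C (sgn ℓ) * X ^ ℓ)))
    (C (C (sgn ℓ)) * X ^ ℓ)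

lemma sgn_mul (ℓ : ℕ) : sgn ℓ * sgn ℓ = 1 := by
  unfold sgn
  rw [← mul_pow]
  norm_num

lemma coeff_sub1 (ℓ : ℕ) (hℓ : 0 < ℓ) (F : ℤ[X]) (p : ℕ) :
    (sub1 ℓ F).coeff (ℓ * p) = sgn ℓ ^ p * F.coeff p := by
  induction F using Polynomial.induction_on' with
  | add f g hf hg => rw [map_add, coeff_add, coeff_add, hf, hg, mul_add]
  | monomial n a =>
    have h1 : sub1 ℓ (monomial n a) = C (a * sgn ℓ ^ n) * X ^ (ℓ * n) := by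
      unfold sub1
      rw [coe_eval₂RingHom, eval₂_monomial, mul_pow, ← pow_mul, C_mul, C_pow]
      simp [mul_assoc]
    rw [h1, coeff_C_mul, coeff_X_pow, coeff_monomial]
    by_cases h : n = p
    · subst h
      simp [mul_comm]
    · have h2 : ¬ ℓ * p = ℓ * n := fun h3 => h (Nat.eq_of_mul_eq_mul_left hℓ h3).symm
      simp [h, h2]

lemma coeff_sub2 (ℓ : ℕ) (hℓ : 0 < ℓ) (F : ℤ[X][X]) (p q : ℕ) :
    ((sub2 ℓ F).coeff (ℓ * q)).coeff (ℓ * p) = sgn ℓ ^ (p + q) * (F.coeff q).coeff p := by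
  induction F using Polynomial.induction_on' with
  | add f g hf hg => rw [map_add, coeff_add, coeff_add, coeff_add, coeff_add, hf, hg, mul_add]
  | monomial n a =>
    have h0 : ∀ a : ℤ[X], (eval₂RingHom (Int.castRingHom ℤ[X][X]) (C (C (sgn ℓ) * X ^ ℓ))) a =
        C (sub1 ℓ a) := by
      intro a
      have : (eval₂RingHom (Int.castRingHom ℤ[X][X]) (C (C (sgn ℓ) * X ^ ℓ))) =
          (C : ℤ[X] →+* ℤ[X][X]).comp (sub1 ℓ) := by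
        refine Polynomial.ringHom_ext (fun z => ?_) ?_
        · simp [sub1]
        · simp [sub1]
      rw [this]
      rfl
    have h1 : sub2 ℓ (monomial n a) = C (sub1 ℓ a * C (sgn ℓ ^ n)) * X ^ (ℓ * n) := by
      unfold sub2
      rw [coe_eval₂RingHom, eval₂_monomial, h0, mul_pow, ← pow_mul, C_mul, ← C_pow, ← C_pow,
        mul_assoc]
    rw [h1, coeff_C_mul, coeff_X_pow, coeff_monomial]
    by_cases h : n = q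
    · subst h
      simp only [if_true, mul_one]
      rw [coeff_mul_C, coeff_sub1 ℓ hℓ]
      ring
    · have h2 : ¬ ℓ * q = ℓ * n := fun h3 => h (Nat.eq_of_mul_eq_mul_left hℓ h3).symm
      simp [h, h2]

lemma isUnit_sgn (ℓ n : ℕ) : IsUnit (sgn ℓ ^ n) := by
  have : IsUnit (sgn ℓ) := IsUnit.of_mul_eq_one _ (sgn_mul ℓ)
  exact this.pow n

lemma dvd1 {ℓ : ℕ} {F : ℤ[X]} : (ℓ : ℤ[X]) ∣ F ↔ ∀ p, (ℓ : ℤ) ∣ F.coeff p := by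
  have : (ℓ : ℤ[X]) = C (ℓ : ℤ) := by simp
  rw [this, C_dvd_iff_dvd_coeff]

lemma dvd2 {ℓ : ℕ} {F : ℤ[X][X]} :
    (ℓ : ℤ[X][X]) ∣ F ↔ ∀ p q, (ℓ : ℤ) ∣ (F.coeff q).coeff p := by
  have : (ℓ : ℤ[X][X]) = C (ℓ : ℤ[X]) := by simp
  rw [this, C_dvd_iff_dvd_coeff]
  constructor
  · intro h p q
    exact dvd1.1 (h q) p
  · intro h q
    exact dvd1.2 fun p => h p q

lemma dvd_of_sub1 {ℓ : ℕ} (hℓ : 0 < ℓ) {F : ℤ[X]} (h : (ℓ : ℤ[X]) ∣ sub1 ℓ F) :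
    (ℓ : ℤ[X]) ∣ F := by
  rw [dvd1] at h ⊢
  intro p
  have := h (ℓ * p)
  rw [coeff_sub1 ℓ hℓ] at this
  exact (isUnit_sgn ℓ p).dvd_mul_left.1 this

lemma dvd_of_sub2 {ℓ : ℕ} (hℓ : 0 < ℓ) {F : ℤ[X][X]} (h : (ℓ : ℤ[X][X]) ∣ sub2 ℓ F) :
    (ℓ : ℤ[X][X]) ∣ F := by
  rw [dvd2] at h ⊢
  intro p q
  have := h (ℓ * p) (ℓ * q)
  rw [coeff_sub2 ℓ hℓ] at this
  exact (isUnit_sgn ℓ (p + q)).dvd_mul_left.1 this

lemma prime1 {ℓ : ℕ} (hℓ : ℓ.Prime) : Prime (ℓ : ℤ[X]) := by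
  have : (ℓ : ℤ[X]) = C (ℓ : ℤ) := by simp
  rw [this, prime_C_iff]
  exact Nat.prime_iff_prime_int.1 hℓ

lemma prime2 {ℓ : ℕ} (hℓ : ℓ.Prime) : Prime (ℓ : ℤ[X][X]) := by
  have : (ℓ : ℤ[X][X]) = C (ℓ : ℤ[X]) := by simp
  rw [this, prime_C_iff]
  exact prime1 hℓ

lemma cancel1 {ℓ : ℕ} (hℓ : ℓ.Prime) {u : ℤ[X]} (hu : u.coeff 0 = 1) (d : ℤ[X])
    (h : (ℓ : ℤ[X]) ∣ sub1 ℓ d * u) : (ℓ : ℤ[X]) ∣ d := by
  rcases (prime1 hℓ).dvd_or_dvd h with h | h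
  · exact dvd_of_sub1 hℓ.pos h
  · exfalso
    have h1 := dvd1.1 h 0
    rw [hu] at h1
    exact (Nat.prime_iff_prime_int.1 hℓ).not_isUnit (isUnit_of_dvd_one h1)

lemma cancel2 {ℓ : ℕ} (hℓ : ℓ.Prime) {u : ℤ[X][X]} (hu : (u.coeff 0).coeff 0 = 1) (d : ℤ[X][X])
    (h : (ℓ : ℤ[X][X]) ∣ sub2 ℓ d * u) : (ℓ : ℤ[X][X]) ∣ d := by
  rcases (prime2 hℓ).dvd_or_dvd h with h | h
  · exact dvd_of_sub2 hℓ.pos h
  · exfalso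
    have h1 := dvd2.1 h 0 0
    rw [hu] at h1
    exact (Nat.prime_iff_prime_int.1 hℓ).not_isUnit (isUnit_of_dvd_one h1)

lemma eq1 {ℓ : ℕ} (hℓ : ℓ.Prime) {f g : ℤ[X]} (h : ∀ k, (ℓ : ℤ[X]) ^ k ∣ f - g) : f = g := by
  rw [← sub_eq_zero]
  ext p
  rw [coeff_zero]
  by_contra h0
  have h1 : ∀ k, (ℓ : ℤ) ^ k ∣ (f - g).coeff p := by
    intro k
    obtain ⟨e, he⟩ := h k
    rw [he]
    have : (ℓ : ℤ[X]) ^ k = C ((ℓ : ℤ) ^ k) := by simp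
    rw [this, coeff_C_mul]
    exact dvd_mul_right _ _
  have hf := Int.finiteMultiplicity_iff (a := (ℓ : ℤ)) (b := (f - g).coeff p)
  have hf2 : FiniteMultiplicity (ℓ : ℤ) ((f - g).coeff p) :=
    hf.2 ⟨by simpa using hℓ.one_lt.ne', h0⟩
  obtain ⟨n, hn⟩ := hf2
  exact hn (h1 _)

lemma eq2 {ℓ : ℕ} (hℓ : ℓ.Prime) {f g : ℤ[X][X]} (h : ∀ k, (ℓ : ℤ[X][X]) ^ k ∣ f - g) :
    f = g := by
  ext1 q
  refine eq1 hℓ fun k => ?_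
  obtain ⟨e, he⟩ := h k
  refine ⟨e.coeff q, ?_⟩
  rw [← coeff_sub, he]
  have : (ℓ : ℤ[X][X]) ^ k = C ((ℓ : ℤ[X]) ^ k) := by simp
  rw [this, coeff_C_mul]

end Pool.Agent.U152.HN
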