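import Mathlib

/-!
One coefficient of all multiples of a symmetric polynomial.
-/

namespace Pool.Agent.U152.HN

open Polynomial

variable {R : Type*} [CommRing R]

/-- The coefficient of `x ^ p y ^ q` (`x` is the inner variable). -/
noncomputable def cf (F : R[X][X]) (p q : ℕ) : R := (F.coeff q).coeff p

/-- `1 + x y`. -/
noncomputable def ww : R[X][X] := 1 + C X * X

/-- `x + y`. -/
noncomputable def ss : R[X][X] := C X + X

/-- `(1 + x) (1 + y)`. -/
noncomputable def vv : R[X][X] := (1 + C X) * (1 + X)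

lemma ss_eq : (ss : R[X][X]) = vv - ww := by
  unfold ss vv ww
  ring

lemma cf_add (F G : R[X][X]) (p q : ℕ) : cf (F + G) p q = cf F p q + cf G p q := by
  simp [cf]

lemma cf_sub (F G : R[X][X]) (p q : ℕ) : cf (F - G) p q = cf F p q - cf G p q := by
  simp [cf]

lemma cf_mono (F : R[X][X]) (i j p q : ℕ) :
    cf (F * (C X ^ i * X ^ j)) p q = if i ≤ p ∧ j ≤ q then cf F (p - i) (q - j) else 0 := by
  unfold cf
  rw [← mul_assoc, coeff_mul_X_pow', ← C_pow]
  by_cases hj : j ≤ q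
  · rw [if_pos hj, coeff_mul_C, coeff_mul_X_pow']
    by_cases hi : i ≤ p
    · rw [if_pos hi, if_pos ⟨hi, hj⟩]
    · rw [if_neg hi, if_neg (fun h => hi h.1)]
  · rw [if_neg hj, if_neg (fun h => hj h.2), coeff_zero]

section

variable (D : R[X][X]) (n c d : ℕ)

/-- The coefficient in question vanishes. -/
def Zr (N : ℕ) (P : R[X][X]) : Prop :=
  ∀ p q, p + q = n + N + c → p = q + d → cf (D * P) p q = 0

variable {D n c d}

lemma Zr.sub {N : ℕ} {P Q : R[X][X]} (h1 : Zr D n c d N P) (h2 : Zr D n c d N Q) :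
    Zr D n c d N (P - Q) := by
  intro p q hp hq
  rw [mul_sub, cf_sub, h1 p q hp hq, h2 p q hp hq, sub_zero]

lemma Zr.congr {N M : ℕ} {P Q : R[X][X]} (h1 : Zr D n c d N P) (h2 : N = M) (h3 : P = Q) :
    Zr D n c d M Q := by
  subst h2
  subst h3
  exact h1

lemma Zr.shift {N : ℕ} {P : R[X][X]} (h1 : Zr D n c d N P) :
    Zr D n c d (N + 2) (P * (C X * X)) := by
  intro p q hp hq
  have h2 : D * (P * (C X * X)) = (D * P) * (C X ^ 1 * X ^ 1) := by ring
  rw [h2, cf_mono]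
  by_cases h : 1 ≤ p ∧ 1 ≤ q
  · rw [if_pos h]
    exact h1 _ _ (by omega) (by omega)
  · rw [if_neg h]

lemma claim1 (H : ∀ a b, Zr D n c d (a + b) (ww ^ a * vv ^ b)) :
    ∀ b a e, Zr D n c d (a + b + e) (ww ^ a * ss ^ b * vv ^ e) := by
  intro b
  induction b with
  | zero =>
    intro a e
    exact (H a e).congr (by omega) (by ring)
  | succ b ih =>
    intro a e
    refine ((((ih a (e + 1)).congr (M := a + (b + 1) + e) (by omega) rfl)).sub
      ((ih (a + 1) e).congr (M := a + (b + 1) + e) (by omega) rfl)).congr rfl ?_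
    rw [pow_succ ss b, ss_eq]
    ring

variable (D n c d)

/-- The same for all multiples. -/
def Qr (N : ℕ) (P : R[X][X]) : Prop := ∀ i j, Zr D n c d (N + i + j) (P * ww ^ i * ss ^ j)

variable {D n c d}

lemma Qr.sub {N : ℕ} {P Q : R[X][X]} (h1 : Qr D n c d N P) (h2 : Qr D n c d N Q) :
    Qr D n c d N (P - Q) := fun i j =>
  ((h1 i j).sub (h2 i j)).congr rfl (by ring)

lemma Qr.congr {N M : ℕ} {P Q : R[X][X]} (h1 : Qr D n c d N P) (h2 : N = M) (h3 : P = Q) :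
    Qr D n c d M Q := by
  subst h2
  subst h3
  exact h1

lemma Qr.mw {N : ℕ} {P : R[X][X]} (h1 : Qr D n c d N P) : Qr D n c d (N + 1) (P * ww) :=
  fun i j => (h1 (i + 1) j).congr (by omega) (by ring)

lemma Qr.ms {N : ℕ} {P : R[X][X]} (h1 : Qr D n c d N P) : Qr D n c d (N + 1) (P * ss) :=
  fun i j => (h1 i (j + 1)).congr (by omega) (by ring)

lemma Qr.mxy {N : ℕ} {P : R[X][X]} (h1 : Qr D n c d N P) : Qr D n c d (N + 2) (P * (C X * X)) :=
  fun i j => ((h1 i j).shift).congr (by omega) (by ring)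

/-- `1 + (x y) ^ a`. -/
noncomputable def al (a : ℕ) : R[X][X] := 1 + (C X * X) ^ a

/-- `x ^ b + y ^ b`. -/
noncomputable def be (b : ℕ) : R[X][X] := C X ^ b + X ^ b

lemma claim2 (H : Qr D n c d 0 1) (a : ℕ) :
    Qr D n c d a (al a) ∧ Qr D n c d (a + 1) (al (a + 1)) := by
  induction a with
  | zero =>
    refine ⟨?_, H.mw.congr rfl (by unfold al ww; ring)⟩
    have h2 : Qr D n c d 0 (1 - 1) := H.sub H
    have h3 : Qr D n c d 0 (0 - 1) := (h2.sub H).congr rfl (by ring)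
    exact (H.sub h3).congr rfl (by unfold al; ring)
  | succ a ih =>
    refine ⟨ih.2, ?_⟩
    exact ((ih.2.mw).sub (ih.1.mxy)).congr (by omega) (by unfold al ww; ring)

lemma claim3 {N : ℕ} {P : R[X][X]} (H : Qr D n c d N P) (b : ℕ) :
    Qr D n c d (N + b) (P * be b) ∧ Qr D n c d (N + (b + 1)) (P * be (b + 1)) := by
  induction b with
  | zero =>
    refine ⟨?_, H.ms.congr rfl (by unfold be ss; ring)⟩
    have h2 : Qr D n c d N (P - P) := H.sub H
    have h3 : Qr D n c d N (0 - P) := (h2.sub H).congr rfl (by ring)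
    exact (H.sub h3).congr rfl (by unfold be; ring)
  | succ b ih =>
    refine ⟨ih.2, ?_⟩
    exact ((ih.2.ms).sub (ih.1.mxy)).congr (by omega) (by unfold be ss; ring)

lemma claim4 (H : ∀ a b, Zr D n c d (a + b) (ww ^ a * vv ^ b)) (a b : ℕ) :
    Zr D n c d (a + b) (al a * be b) := by
  have h0 : Qr D n c d 0 1 := fun i j =>
    (claim1 H j i 0).congr (by omega) (by ring)
  exact ((claim3 (claim2 h0 a).1 b).1 0 0).congr (by omega) (by ring)

/-- **The lemma.** -/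
theorem vanish (hc : 1 ≤ c) (hd : 1 ≤ d)
    (hsymm : ∀ p q, cf D p q = cf D q p)
    (hserre : ∀ p q, p ≤ n → q ≤ n → cf D p q = cf D (n - p) (n - q))
    (hbd : ∀ p q, cf D p q ≠ 0 → p ≤ n ∧ q ≤ n)
    (H : ∀ a b, Zr D n c d (a + b) (ww ^ a * vv ^ b)) (p q : ℕ) : cf D p q = 0 := by
  classical
  by_contra hne
  set S : Finset (ℕ × ℕ) :=
    (Finset.range (n + 1) ×ˢ Finset.range (n + 1)).filter fun z => cf D z.1 z.2 ≠ 0 with hS
  have hmem : ∀ p q, cf D p q ≠ 0 → (p, q) ∈ S := by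
    intro p q h
    have := hbd p q h
    simp only [hS, Finset.mem_filter, Finset.mem_product, Finset.mem_range]
    exact ⟨⟨by omega, by omega⟩, h⟩
  have hSne : S.Nonempty := ⟨(p, q), hmem p q hne⟩
  obtain ⟨⟨p₀, q₀⟩, hz, hmax⟩ := S.exists_max_image
    (fun z => ((z.1 : ℤ) - z.2) * (4 * n + 5) + (z.1 + z.2)) hSne
  have h0 : cf D p₀ q₀ ≠ 0 := (Finset.mem_filter.1 hz).2
  obtain ⟨hp₀, hq₀⟩ := hbd p₀ q₀ h0
  have key : ∀ p q : ℕ, cf D p q ≠ 0 →
      ((p : ℤ) - q) * (4 * n + 5) + (p + q) ≤ ((p₀ : ℤ) - q₀) * (4 * n + 5) + (p₀ + q₀) :=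
    fun p q h => hmax (p, q) (hmem p q h)
  -- the difference is nonnegative
  have hb : q₀ ≤ p₀ := by
    by_contra hlt
    have h1 := key q₀ p₀ (by rw [hsymm]; exact h0)
    have h2 : (0 : ℤ) < q₀ - p₀ := by omega
    nlinarith [mul_pos h2 (show (0 : ℤ) < 4 * n + 5 by positivity)]
  have ha : n ≤ p₀ + q₀ := by
    have h1 : cf D (n - q₀) (n - p₀) ≠ 0 := by
      rw [← hserre q₀ p₀ hq₀ hp₀, hsymm]
      exact h0
    have h2 := key _ _ h1
    rw [Nat.cast_sub hq₀, Nat.cast_sub hp₀] at h2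
    have h3 : ((n : ℤ) - q₀ - (n - p₀)) = p₀ - q₀ := by ring
    rw [h3] at h2
    omega
  -- the three other terms
  have hbig : ∀ p q : ℕ, p ≤ n → q ≤ n → (p₀ : ℤ) - q₀ < p - q → cf D p q = 0 := by
    intro p q hp hq hlt
    by_contra hn
    have h1 := key p q hn
    have h2 : ((p₀ : ℤ) - q₀ + 1) * (4 * n + 5) ≤ ((p : ℤ) - q) * (4 * n + 5) :=
      mul_le_mul_of_nonneg_right (by omega) (by positivity)
    nlinarith
  have hbig' : ∀ p q : ℕ, (p₀ : ℤ) - q₀ < p - q → cf D p q = 0 := by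
    intro p q hlt
    by_contra hn
    obtain ⟨h1, h2⟩ := hbd p q hn
    exact hn (hbig p q h1 h2 hlt)
  have h1 := claim4 H (p₀ + q₀ - n + c) (p₀ - q₀ + d) (p₀ + c + d) (p₀ + c) (by omega) (by omega)
  have hexp : D * (al (p₀ + q₀ - n + c) * be (p₀ - q₀ + d)) =
      D * (C X ^ (p₀ - q₀ + d) * X ^ 0) + D * (C X ^ 0 * X ^ (p₀ - q₀ + d)) +
      (D * (C X ^ (p₀ + q₀ - n + c + (p₀ - q₀ + d)) * X ^ (p₀ + q₀ - n + c)) +
        D * (C X ^ (p₀ + q₀ - n + c) * X ^ (p₀ + q₀ - n + c + (p₀ - q₀ + d)))) := by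
    unfold al be
    ring
  rw [hexp, cf_add, cf_add, cf_add, cf_mono, cf_mono, cf_mono, cf_mono] at h1
  -- the first term
  have t1 : cf D (p₀ + c + d - (p₀ - q₀ + d)) (p₀ + c - 0) = 0 := by
    rw [hsymm]
    by_contra hn
    have h2 := key _ _ hn
    have h3 : p₀ + c + d - (p₀ - q₀ + d) = q₀ + c := by omega
    rw [h3] at h2
    push_cast at h2
    have h4 : ((p₀ : ℤ) + c - (q₀ + c)) = p₀ - q₀ := by ring
    simp only [Nat.sub_zero] at h2
    push_cast at h2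
    rw [h4] at h2
    omega
  have t2 : cf D (p₀ + c + d - 0) (p₀ + c - (p₀ - q₀ + d)) = 0 := by
    apply hbig'
    omega
  have t3 : cf D (p₀ + c + d - (p₀ + q₀ - n + c + (p₀ - q₀ + d)))
      (p₀ + c - (p₀ + q₀ - n + c)) = cf D p₀ q₀ := by
    have e1 : p₀ + c + d - (p₀ + q₀ - n + c + (p₀ - q₀ + d)) = n - p₀ := by omega
    have e2 : p₀ + c - (p₀ + q₀ - n + c) = n - q₀ := by omega
    rw [e1, e2, ← hserre p₀ q₀ hp₀ hq₀]
  have t4 : cf D (p₀ + c + d - (p₀ + q₀ - n + c))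
      (p₀ + c - (p₀ + q₀ - n + c + (p₀ - q₀ + d))) = 0 ∨
      ¬ (p₀ + q₀ - n + c + (p₀ - q₀ + d) ≤ p₀ + c) := by
    by_cases h : p₀ + q₀ - n + c + (p₀ - q₀ + d) ≤ p₀ + c
    · left
      apply hbig'
      omega
    · exact Or.inr h
  have c3 : p₀ + q₀ - n + c + (p₀ - q₀ + d) ≤ p₀ + c + d ∧ p₀ + q₀ - n + c ≤ p₀ + c := by
    omega
  rw [if_pos c3, t3, t1, t2] at h1
  simp only [ite_self, zero_add] at h1
  rcases t4 with t4 | t4
  · rw [t4] at h1
    simp only [ite_self, add_zero] at h1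
    exact h0 h1
  · rw [if_neg (fun h => t4 h.2), add_zero] at h1
    exact h0 h1

end

end Pool.Agent.U152.HN
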