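import Pool.Agent.U152.HN.Alg
import Pool.Agent.U152.HN.Mid

/-!
Hodge numbers and derived equivalence: congruences.
-/

namespace Pool.Agent.U152.HN

open Polynomial

universe u

/-- A class of smooth projective complex varieties with their Hodge numbers and the relation of
derived equivalence. -/
structure HodgeData where
  /-- the varieties -/
  V : Type u
  /-- the dimension -/
  dim : V → ℕ
  /-- the Hodge numbers `h^{p,q}` -/
  h : V → ℕ → ℕ → ℕ
  /-- derived equivalence -/
  Deq : V → V → Prop
  h_bound : ∀ A p q, h A p q ≠ 0 → p ≤ dim A ∧ q ≤ dim A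
  deq_dim : ∀ A B, Deq A B → dim A = dim B

/-- The Hodge polynomial `∑ h^{p,q} x^p y^q` (`x` is the inner variable). -/
noncomputable def HodgeData.poly (T : HodgeData.{u}) (A : T.V) : ℤ[X][X] :=
  ∑ p ∈ Finset.range (T.dim A + 1), ∑ q ∈ Finset.range (T.dim A + 1),
    C (C (T.h A p q : ℤ)) * (C X ^ p * X ^ q)

/-- The Betti numbers. -/
def HodgeData.betti (T : HodgeData.{u}) (A : T.V) (k : ℕ) : ℕ :=
  ∑ x ∈ Finset.HasAntidiagonal.antidiagonal k, T.h A x.1 x.2

/-- A class which contains with `A` the variety `cyc A = (A ^ ℓ × E) / (ℤ/ℓ)`; the cyclic group acts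
freely, by the cyclic permutation of the factors and by translation by a point of order `ℓ` of the
elliptic curve `E`.  (The Hodge polynomial is the one of the invariants of the cohomology; derived
equivalences extend to these quotients.) -/
structure CyclicClass (ℓ : ℕ) extends HodgeData.{u} where
  /-- the quotient `(A ^ ℓ × E) / (ℤ/ℓ)` -/
  cyc : V → V
  deq_cyc : ∀ A B, Deq A B → Deq (cyc A) (cyc B)
  poly_cyc : ∀ A, (ℓ : ℤ[X][X]) * HodgeData.poly toHodgeData (cyc A) =
    (HodgeData.poly toHodgeData A ^ ℓ + ((ℓ : ℤ[X][X]) - 1) *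
      sub2 ℓ (HodgeData.poly toHodgeData A)) * ((1 + C X) * (1 + X))

/-- The class of all smooth projective complex varieties. -/
structure AllVarieties extends HodgeData.{u} where
  /-- the quotient `(A ^ ℓ × E) / (ℤ/ℓ)` -/
  cyc : ℕ → V → V
  /-- the product -/
  prod : V → V → V
  /-- the projective line -/
  line : V
  /-- an elliptic curve -/
  ell : V
  deq_refl : ∀ A, Deq A A
  deq_prod : ∀ A B A' B', Deq A B → Deq A' B' → Deq (prod A A') (prod B B')
  deq_cyc : ∀ ℓ : ℕ, ℓ.Prime → ∀ A B, Deq A B → Deq (cyc ℓ A) (cyc ℓ B)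
  poly_cyc : ∀ ℓ : ℕ, ℓ.Prime → ∀ A, (ℓ : ℤ[X][X]) * HodgeData.poly toHodgeData (cyc ℓ A) =
    (HodgeData.poly toHodgeData A ^ ℓ + ((ℓ : ℤ[X][X]) - 1) *
      sub2 ℓ (HodgeData.poly toHodgeData A)) * ((1 + C X) * (1 + X))
  dim_prod : ∀ A B, dim (prod A B) = dim A + dim B
  poly_prod : ∀ A B, HodgeData.poly toHodgeData (prod A B) =
    HodgeData.poly toHodgeData A * HodgeData.poly toHodgeData B
  dim_line : dim line = 1
  poly_line : HodgeData.poly toHodgeData line = 1 + C X * X
  dim_ell : dim ell = 1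
  poly_ell : HodgeData.poly toHodgeData ell = (1 + C X) * (1 + X)
  symm : ∀ A p q, h A p q = h A q p
  serre : ∀ A p q, p ≤ dim A → q ≤ dim A → h A p q = h A (dim A - p) (dim A - q)
  hochschild : ∀ A B, Deq A B → ∀ i : ℤ,
    ∑ z ∈ Finset.range (dim A + 1) ×ˢ Finset.range (dim A + 1) with (z.1 : ℤ) - z.2 = i,
      h A z.1 z.2 =
    ∑ z ∈ Finset.range (dim A + 1) ×ˢ Finset.range (dim A + 1) with (z.1 : ℤ) - z.2 = i,
      h B z.1 z.2

namespace HodgeData

variable (T : HodgeData.{u})

/-- Q1: the Hodge numbers are derived invariants. -/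
def Invariant : Prop := ∀ A B, T.Deq A B → ∀ p q, T.h A p q = T.h B p q

/-- The numbers `h^{0,q}` are derived invariants. -/
def RowInvariant : Prop := ∀ A B, T.Deq A B → ∀ q, T.h A 0 q = T.h B 0 q

/-- The Betti numbers are derived invariants. -/
def BettiInvariant : Prop := ∀ A B, T.Deq A B → ∀ k, T.betti A k = T.betti B k

/-- The Hodge numbers modulo `M` are derived invariants. -/
def InvariantMod (M : ℕ) : Prop := ∀ A B, T.Deq A B → ∀ p q, T.h A p q ≡ T.h B p q [MOD M]

/-- The numbers `h^{0,q}` modulo `M` are derived invariants. -/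
def RowInvariantMod (M : ℕ) : Prop := ∀ A B, T.Deq A B → ∀ q, T.h A 0 q ≡ T.h B 0 q [MOD M]

/-- The Betti numbers modulo `M` are derived invariants. -/
def BettiInvariantMod (M : ℕ) : Prop :=
  ∀ A B, T.Deq A B → ∀ k, T.betti A k ≡ T.betti B k [MOD M]

/-- In dimension `n ≥ N` the Hodge number `h^{p,q}` with `p + q = n + c` and `p - q = d` (one Hodge
number in every dimension `n` with `n ≡ c + d` modulo `2`) is a derived invariant modulo `M`. -/
def OneNumberMod (c d N M : ℕ) : Prop :=
  ∀ A B, T.Deq A B → N ≤ T.dim A → ∀ p q, p + q = T.dim A + c → p = q + d →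
    T.h A p q ≡ T.h B p q [MOD M]

/-- In dimension `2 m`, `m ≥ N`, the number `h^{0,m}` is a derived invariant modulo `M`. -/
def OneRowNumberMod (N M : ℕ) : Prop :=
  ∀ A B, T.Deq A B → ∀ m, N ≤ m → T.dim A = 2 * m → T.h A 0 m ≡ T.h B 0 m [MOD M]

variable {T}

lemma cf_poly (A : T.V) (p q : ℕ) : cf (T.poly A) p q = T.h A p q := by
  unfold HodgeData.poly cf
  simp only [finsetSum_coeff, coeff_C_mul]
  have h1 : ∀ i j : ℕ, ((C (X : ℤ[X]) ^ i * X ^ j : ℤ[X][X]).coeff q).coeff p =
      if p = i ∧ q = j then 1 else 0 := by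
    intro i j
    rw [← C_pow, coeff_C_mul, coeff_X_pow]
    by_cases hj : q = j
    · rw [if_pos hj, mul_one, coeff_X_pow]
      simp [hj]
    · rw [if_neg hj, mul_zero, coeff_zero, if_neg (fun h => hj h.2)]
  simp only [h1]
  by_cases h : T.h A p q = 0
  · rw [h]
    refine Finset.sum_eq_zero fun i _ => Finset.sum_eq_zero fun j _ => ?_
    by_cases hij : p = i ∧ q = j
    · obtain ⟨rfl, rfl⟩ := hij
      simp [h]
    · rw [if_neg hij, mul_zero]
  · have hb := T.h_bound A p q h
    rw [Finset.sum_eq_single p, Finset.sum_eq_single q]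
    · simp
    · intro j _ hj
      rw [if_neg (fun h => hj h.2.symm), mul_zero]
    · intro hq
      exact absurd (Finset.mem_range.2 (by omega)) hq
    · intro i _ hi
      refine Finset.sum_eq_zero fun j _ => ?_
      rw [if_neg (fun h => hi h.1.symm), mul_zero]
    · intro hp
      exact absurd (Finset.mem_range.2 (by omega)) hp

lemma coeff_row (A : T.V) (q : ℕ) :
    ((mapRingHom (evalRingHom (0 : ℤ)) : ℤ[X][X] →+* ℤ[X]) (T.poly A)).coeff q = T.h A 0 q := by
  rw [coe_mapRingHom, coeff_map, coe_evalRingHom, ← coeff_zero_eq_eval_zero]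
  exact cf_poly A 0 q

lemma coeff_betti (A : T.V) (k : ℕ) :
    ((evalRingHom (X : ℤ[X]) : ℤ[X][X] →+* ℤ[X]) (T.poly A)).coeff k = T.betti A k := by
  have h1 : (evalRingHom (X : ℤ[X]) : ℤ[X][X] →+* ℤ[X]) (T.poly A) =
      ∑ z ∈ Finset.range (T.dim A + 1) ×ˢ Finset.range (T.dim A + 1),
        C (T.h A z.1 z.2 : ℤ) * X ^ (z.1 + z.2) := by
    unfold HodgeData.poly
    rw [map_sum, Finset.sum_product]
    refine Finset.sum_congr rfl fun p _ => ?_
    rw [map_sum]
    refine Finset.sum_congr rfl fun q _ => ?_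
    simp [pow_add]
  rw [h1, finsetSum_coeff]
  simp only [coeff_C_mul, coeff_X_pow, mul_ite, mul_one, mul_zero]
  rw [← Finset.sum_filter]
  unfold HodgeData.betti
  push_cast
  refine Finset.sum_subset ?_ ?_
  · intro z hz
    rw [Finset.HasAntidiagonal.mem_antidiagonal]
    exact (Finset.mem_filter.1 hz).2.symm
  · intro z hz hn
    by_contra h0
    have h2 : T.h A z.1 z.2 ≠ 0 := by exact_mod_cast h0
    have h3 := T.h_bound A _ _ h2
    apply hn
    rw [Finset.mem_filter, Finset.mem_product, Finset.mem_range, Finset.mem_range]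
    exact ⟨⟨by omega, by omega⟩, (Finset.HasAntidiagonal.mem_antidiagonal.1 hz).symm⟩

end HodgeData

namespace CyclicClass

variable {ℓ : ℕ} (T : CyclicClass.{u} ℓ)

theorem full (hℓ : ℓ.Prime) : T.Invariant ↔ T.InvariantMod ℓ := by
  constructor
  · intro h A B hAB p q
    rw [h A B hAB p q]
  · intro h
    have h1 : ∀ k, 1 ≤ k → ∀ A B, T.Deq A B →
        (ℓ : ℤ[X][X]) ^ k ∣ T.poly A - T.poly B := by
      intro k hk
      induction k, hk using Nat.le_induction with
      | base =>
        intro A B hAB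
        rw [pow_one, dvd2]
        intro p q
        have h2 := h A B hAB p q
        have h3 : ((T.poly A - T.poly B).coeff q).coeff p = (T.h A p q : ℤ) - T.h B p q := by
          have := cf_sub (T.poly A) (T.poly B) p q
          rw [HodgeData.cf_poly, HodgeData.cf_poly] at this
          exact this
        rw [h3]
        exact (Int.natCast_modEq_iff.2 h2).symm.dvd
      | succ k hk ih =>
        intro A B hAB
        refine step ℓ ?_ (sub2 ℓ) ((1 + C X) * (1 + X)) ?_ k hk _ _ (T.poly (T.cyc A))
          (T.poly (T.cyc B)) (ih A B hAB) (ih _ _ (T.deq_cyc A B hAB)) (T.poly_cyc A)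
          (T.poly_cyc B)
        · exact mem_nonZeroDivisors_of_ne_zero (prime2 hℓ).ne_zero
        · intro d hd
          refine cancel2 hℓ ?_ d hd
          simp
    intro A B hAB p q
    have h2 : T.poly A = T.poly B := by
      refine eq2 hℓ fun k => ?_
      rcases Nat.eq_zero_or_pos k with rfl | hk
      · simp
      · exact h1 k hk A B hAB
    have h3 := HodgeData.cf_poly (T := T.toHodgeData) A p q
    rw [h2, HodgeData.cf_poly] at h3
    exact_mod_cast h3.symm

theorem image (hℓ : ℓ.Prime) (ρ : ℤ[X][X] →+* ℤ[X])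
    (hρ : ∀ F, ρ (sub2 ℓ F) = sub1 ℓ (ρ F))
    (hu : (ρ ((1 + C X) * (1 + X))).coeff 0 = 1)
    (h : ∀ A B, T.Deq A B → (ℓ : ℤ[X]) ∣ ρ (T.poly A) - ρ (T.poly B)) (A B : T.V)
    (hAB : T.Deq A B) : ρ (T.poly A) = ρ (T.poly B) := by
  have h1 : ∀ k, 1 ≤ k → ∀ A B, T.Deq A B →
      (ℓ : ℤ[X]) ^ k ∣ ρ (T.poly A) - ρ (T.poly B) := by
    intro k hk
    induction k, hk using Nat.le_induction with
    | base =>
      intro A B hAB
      rw [pow_one]
      exact h A B hAB
    | succ k hk ih =>
      intro A B hAB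
      have hc : ∀ A, (ℓ : ℤ[X]) * ρ (T.poly (T.cyc A)) =
          (ρ (T.poly A) ^ ℓ + (ℓ - 1) * sub1 ℓ (ρ (T.poly A))) * ρ ((1 + C X) * (1 + X)) := by
        intro A
        have := congrArg ρ (T.poly_cyc A)
        rw [map_mul, map_mul, map_add, map_mul, map_sub, map_pow, map_natCast, map_one,
          hρ] at this
        exact this
      refine step ℓ ?_ (sub1 ℓ) _ ?_ k hk _ _ (ρ (T.poly (T.cyc A)))
        (ρ (T.poly (T.cyc B))) (ih A B hAB) (ih _ _ (T.deq_cyc A B hAB)) (hc A) (hc B)
      · exact mem_nonZeroDivisors_of_ne_zero (prime1 hℓ).ne_zero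
      · intro d hd
        exact cancel1 hℓ hu d hd
  refine eq1 hℓ fun k => ?_
  rcases Nat.eq_zero_or_pos k with rfl | hk
  · simp
  · exact h1 k hk A B hAB

theorem row (hℓ : ℓ.Prime) : T.RowInvariant ↔ T.RowInvariantMod ℓ := by
  constructor
  · intro h A B hAB q
    rw [h A B hAB q]
  · intro h A B hAB q
    have key := T.image hℓ (mapRingHom (evalRingHom (0 : ℤ))) ?_ ?_ ?_ A B hAB
    · have h3 := HodgeData.coeff_row (T := T.toHodgeData) A q
      rw [key, HodgeData.coeff_row] at h3
      exact_mod_cast h3.symm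
    · intro F
      have : (mapRingHom (evalRingHom (0 : ℤ)) : ℤ[X][X] →+* ℤ[X]).comp (sub2 ℓ) =
          (sub1 ℓ).comp (mapRingHom (evalRingHom (0 : ℤ))) := by
        refine Polynomial.ringHom_ext' (Polynomial.ringHom_ext (fun z => ?_) ?_) ?_
        · simp [sub1, sub2]
        · simp [sub1, sub2, hℓ.ne_zero]
        · simp [sub1, sub2]
      exact congrArg (fun f : ℤ[X][X] →+* ℤ[X] => f F) this
    · simp
    · intro A B hAB
      rw [dvd1]
      intro q
      rw [coeff_sub, HodgeData.coeff_row, HodgeData.coeff_row]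
      exact (Int.natCast_modEq_iff.2 (h A B hAB q)).symm.dvd

theorem bettiNumbers (hℓ : ℓ.Prime) : T.BettiInvariant ↔ T.BettiInvariantMod ℓ := by
  constructor
  · intro h A B hAB q
    rw [h A B hAB q]
  · intro h A B hAB q
    have key := T.image hℓ (evalRingHom (X : ℤ[X])) ?_ ?_ ?_ A B hAB
    · have h3 := HodgeData.coeff_betti (T := T.toHodgeData) A q
      rw [key, HodgeData.coeff_betti] at h3
      exact_mod_cast h3.symm
    · intro F
      have : (evalRingHom (X : ℤ[X]) : ℤ[X][X] →+* ℤ[X]).comp (sub2 ℓ) =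
          (sub1 ℓ).comp (evalRingHom (X : ℤ[X])) := by
        refine Polynomial.ringHom_ext' (Polynomial.ringHom_ext (fun z => ?_) ?_) ?_
        · simp [sub1, sub2]
        · simp [sub1, sub2]
        · simp [sub1, sub2]
      exact congrArg (fun f : ℤ[X][X] →+* ℤ[X] => f F) this
    · simp
    · intro A B hAB
      rw [dvd1]
      intro q
      rw [coeff_sub, HodgeData.coeff_betti, HodgeData.coeff_betti]
      exact (Int.natCast_modEq_iff.2 (h A B hAB q)).symm.dvd

end CyclicClass

namespace AllVarieties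

variable (T : AllVarieties.{u})

/-- The class with the construction for one prime number. -/
def cyclic (ℓ : ℕ) (hℓ : ℓ.Prime) : CyclicClass.{u} ℓ where
  toHodgeData := T.toHodgeData
  cyc := T.cyc ℓ
  deq_cyc := T.deq_cyc ℓ hℓ
  poly_cyc := T.poly_cyc ℓ hℓ

/-- `A × (P^1)^a × E^b`. -/
def mul (A : T.V) (a b : ℕ) : T.V :=
  Nat.iterate (fun B => T.prod B T.ell) b (Nat.iterate (fun B => T.prod B T.line) a A)

variable {T}

lemma poly_mul (A : T.V) (a b : ℕ) :
    T.poly (T.mul A a b) = T.poly A * (ww ^ a * vv ^ b) := by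
  unfold mul
  induction b with
  | zero =>
    rw [Function.iterate_zero, id, pow_zero, mul_one]
    induction a with
    | zero => simp
    | succ a ih =>
      rw [Function.iterate_succ_apply', T.poly_prod, ih, T.poly_line]
      unfold ww
      ring
  | succ b ih =>
    rw [Function.iterate_succ_apply', T.poly_prod, ih, T.poly_ell]
    unfold vv
    ring

lemma dim_mul (A : T.V) (a b : ℕ) : T.dim (T.mul A a b) = T.dim A + (a + b) := by
  unfold mul
  induction b with
  | zero =>
    rw [Function.iterate_zero, id]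
    induction a with
    | zero => simp
    | succ a ih =>
      rw [Function.iterate_succ_apply', T.dim_prod, ih, T.dim_line]
      ring
  | succ b ih =>
    rw [Function.iterate_succ_apply', T.dim_prod, ih, T.dim_ell]
    ring

lemma deq_mul (A B : T.V) (h : T.Deq A B) (a b : ℕ) : T.Deq (T.mul A a b) (T.mul B a b) := by
  unfold mul
  induction b with
  | zero =>
    rw [Function.iterate_zero, id, id]
    induction a with
    | zero => simpa using h
    | succ a ih =>
      rw [Function.iterate_succ_apply', Function.iterate_succ_apply']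
      exact T.deq_prod _ _ _ _ ih (T.deq_refl _)
  | succ b ih =>
    rw [Function.iterate_succ_apply', Function.iterate_succ_apply']
    exact T.deq_prod _ _ _ _ ih (T.deq_refl _)

variable (T)

/-- One Hodge number. -/
theorem one (M : ℕ) (hM : 2 ≤ M) (c d N : ℕ) (hc : 1 ≤ c) (hd : 1 ≤ d) :
    T.Invariant ↔ T.OneNumberMod c d N M := by
  constructor
  · intro h A B hAB _ p q _ _
    rw [h A B hAB p q]
  · intro h
    obtain ⟨ℓ, hℓ, hℓM⟩ := Nat.exists_prime_and_dvd (show M ≠ 1 by omega)
    have : Fact ℓ.Prime := ⟨hℓ⟩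
    suffices hmain : ∀ A₀ B₀ : T.V, T.Deq A₀ B₀ → ∀ p q, T.h A₀ p q ≡ T.h B₀ p q [MOD ℓ] from
      ((T.cyclic ℓ hℓ).full hℓ).2 hmain
    intro A₀ B₀ hAB₀
    -- pass to large dimension
    obtain ⟨A, hA⟩ : ∃ A, A = T.mul A₀ 0 N := ⟨_, rfl⟩
    obtain ⟨B, hB⟩ : ∃ B, B = T.mul B₀ 0 N := ⟨_, rfl⟩
    have hAB : T.Deq A B := by
      rw [hA, hB]
      exact deq_mul A₀ B₀ hAB₀ 0 N
    have hdim : T.dim B = T.dim A := (T.deq_dim A B hAB).symm
    have hN : N ≤ T.dim A := by
      rw [hA, dim_mul]
      omega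
    let φ : ℤ[X][X] →+* (ZMod ℓ)[X][X] := mapRingHom (mapRingHom (Int.castRingHom (ZMod ℓ)))
    have hφ : ∀ (F : ℤ[X][X]) (p q : ℕ), cf (φ F) p q = ((cf F p q : ℤ) : ZMod ℓ) := by
      intro F p q
      simp [φ, cf]
    have hD : ∀ p q, cf (φ (T.poly A - T.poly B)) p q =
        (T.h A p q : ZMod ℓ) - (T.h B p q : ZMod ℓ) := by
      intro p q
      rw [hφ, cf_sub, HodgeData.cf_poly, HodgeData.cf_poly]
      push_cast
      ring
    have hzero : φ (T.poly A - T.poly B) = 0 := by
      have hv := vanish (D := φ (T.poly A - T.poly B)) (n := T.dim A) (c := c) (d := d) hc hd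
        ?_ ?_ ?_ ?_
      · ext q p
        exact hv p q
      · intro p q
        rw [hD, hD, T.symm A, T.symm B]
      · intro p q hp hq
        rw [hD, hD, T.serre A p q hp hq, T.serre B p q (by rw [hdim]; exact hp)
          (by rw [hdim]; exact hq), hdim]
      · intro p q hne
        rw [hD] at hne
        by_contra hno
        apply hne
        have h1 : T.h A p q = 0 := by
          by_contra h0
          exact hno (T.h_bound A p q h0)
        have h2 : T.h B p q = 0 := by
          by_contra h0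
          have := T.h_bound B p q h0
          rw [hdim] at this
          exact hno this
        rw [h1, h2]
        simp
      · intro a b p q hp hq
        have h1 : φ (T.poly A - T.poly B) * (ww ^ a * vv ^ b) =
            φ (T.poly (T.mul A a b) - T.poly (T.mul B a b)) := by
          rw [poly_mul A, poly_mul B, ← sub_mul, map_mul]
          congr 1
          simp [φ, ww, vv]
        rw [h1, hφ, cf_sub, HodgeData.cf_poly, HodgeData.cf_poly]
        have h2 := h _ _ (deq_mul A B hAB a b) (by rw [dim_mul]; omega) p q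
          (by rw [dim_mul]; omega) hq
        have h3 : (T.h (T.mul A a b) p q : ZMod ℓ) = T.h (T.mul B a b) p q :=
          (ZMod.natCast_eq_natCast_iff _ _ _).2 (h2.of_dvd hℓM)
        push_cast
        rw [h3, sub_self]
    -- cancel the elliptic curves
    have hzero2 : φ (T.poly A₀ - T.poly B₀) = 0 := by
      rw [hA, hB, poly_mul, poly_mul, ← sub_mul, map_mul] at hzero
      rcases mul_eq_zero.1 hzero with h1 | h1
      · exact h1
      · exfalso
        have h2 := congrArg (fun F => (F.coeff 0).coeff 0) h1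
        simp [φ, ww, vv, coeff_zero_eq_eval_zero] at h2
    intro p q
    have h4 : cf (φ (T.poly A₀ - T.poly B₀)) p q = cf 0 p q := by rw [hzero2]
    rw [hφ, cf_sub, HodgeData.cf_poly, HodgeData.cf_poly] at h4
    refine (ZMod.natCast_eq_natCast_iff _ _ _).1 ?_
    have h5 : cf (0 : (ZMod ℓ)[X][X]) p q = 0 := by simp [cf]
    rw [h5] at h4
    push_cast at h4
    exact sub_eq_zero.1 h4

/-- One of the numbers `h^{0,q}`. -/
theorem oneRow (M : ℕ) (hM : 2 ≤ M) (N : ℕ) : T.RowInvariant ↔ T.OneRowNumberMod N M := by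
  constructor
  · intro h A B hAB m _ _
    rw [h A B hAB m]
  · intro h
    obtain ⟨ℓ, hℓ, hℓM⟩ := Nat.exists_prime_and_dvd (show M ≠ 1 by omega)
    have : Fact ℓ.Prime := ⟨hℓ⟩
    suffices hmain : ∀ A B : T.V, T.Deq A B → ∀ q, T.h A 0 q ≡ T.h B 0 q [MOD ℓ] from
      ((T.cyclic ℓ hℓ).row hℓ).2 hmain
    intro A B hAB
    let φ : ℤ[X][X] →+* (ZMod ℓ)[X] :=
      (mapRingHom (Int.castRingHom (ZMod ℓ))).comp (mapRingHom (evalRingHom (0 : ℤ)))
    have hφ : ∀ (C : T.V) (q : ℕ), (φ (T.poly C)).coeff q = (T.h C 0 q : ZMod ℓ) := by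
      intro C q
      have h1 := HodgeData.coeff_row (T := T.toHodgeData) C q
      show ((mapRingHom (Int.castRingHom (ZMod ℓ)))
        (mapRingHom (evalRingHom (0 : ℤ)) (T.poly C))).coeff q = _
      rw [coe_mapRingHom, coeff_map, h1]
      simp
    have hzero : φ (T.poly A - T.poly B) = 0 := by
      by_contra hne
      set D := φ (T.poly A - T.poly B) with hD
      have hDc : ∀ q, D.coeff q = (T.h A 0 q : ZMod ℓ) - T.h B 0 q := by
        intro q
        rw [hD, map_sub, coeff_sub, hφ, hφ]
      have hdim : T.dim B = T.dim A := (T.deq_dim A B hAB).symm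
      have hJ : D.natDegree ≤ T.dim A := by
        rw [natDegree_le_iff_coeff_eq_zero]
        intro q hq
        have e1 : T.h A 0 q = 0 := by
          by_contra h0
          have := (T.h_bound A 0 q h0).2
          omega
        have e2 : T.h B 0 q = 0 := by
          by_contra h0
          have := (T.h_bound B 0 q h0).2
          omega
        rw [hDc, e1, e2]
        simp
      obtain ⟨J, hJd⟩ : ∃ J, J = D.natDegree := ⟨_, rfl⟩
      obtain ⟨m, hm⟩ : ∃ m, m = T.dim A + N := ⟨_, rfl⟩
      have h1 := h _ _ (deq_mul A B hAB (m - T.dim A + J) (m - J)) m (by omega)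
        (by rw [dim_mul]; omega)
      have h2 : ((T.h (T.mul A (m - T.dim A + J) (m - J)) 0 m : ℕ) : ZMod ℓ) =
          (T.h (T.mul B (m - T.dim A + J) (m - J)) 0 m : ℕ) :=
        (ZMod.natCast_eq_natCast_iff _ _ _).2 (h1.of_dvd hℓM)
      rw [← hφ, ← hφ, ← sub_eq_zero, ← coeff_sub, ← map_sub, poly_mul, poly_mul, ← sub_mul,
        map_mul, ← hD] at h2
      have h3 : φ (ww ^ (m - T.dim A + J) * vv ^ (m - J)) = (1 + X) ^ (m - J) := by
        simp [φ, ww, vv]
      rw [h3] at h2
      have h4 : m = J + (m - J) := by omega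
      have h5 : ((1 + X : (ZMod ℓ)[X]) ^ (m - J)).natDegree ≤ m - J := by
        refine (natDegree_pow_le).trans ?_
        have : (1 + X : (ZMod ℓ)[X]).natDegree ≤ 1 := by
          rw [add_comm]
          exact (natDegree_X_add_C (1 : ZMod ℓ)).le
        calc (m - J) * (1 + X : (ZMod ℓ)[X]).natDegree ≤ (m - J) * 1 :=
              Nat.mul_le_mul_left _ this
          _ = m - J := mul_one _
      have h6 : (D * (1 + X) ^ (m - J)).coeff (J + (m - J)) =
          D.coeff J * ((1 + X : (ZMod ℓ)[X]) ^ (m - J)).coeff (m - J) :=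
        coeff_mul_add_eq_of_natDegree_le (by omega) h5
      rw [← h4, h2] at h6
      have h7 : ((1 + X : (ZMod ℓ)[X]) ^ (m - J)).coeff (m - J) = 1 := by
        rw [coeff_one_add_X_pow, Nat.choose_self, Nat.cast_one]
      rw [h7, mul_one, hJd] at h6
      exact hne (leadingCoeff_eq_zero.1 h6.symm)
    intro q
    refine (ZMod.natCast_eq_natCast_iff _ _ _).1 ?_
    rw [← hφ, ← hφ, ← sub_eq_zero, ← coeff_sub, ← map_sub, hzero, coeff_zero]

/-- The parity on the line `p + q = n`. -/
theorem middle (A B : T.V) (hAB : T.Deq A B) (p q : ℕ) (hpq : p + q = T.dim A) :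
    T.h A p q ≡ T.h B p q [MOD 2] := by
  classical
  have h1 := T.hochschild A B hAB ((p : ℤ) - q)
  set S := (Finset.range (T.dim A + 1) ×ˢ Finset.range (T.dim A + 1)).filter
    fun z => (z.1 : ℤ) - z.2 = (p : ℤ) - q with hS
  have hdim : T.dim B = T.dim A := (T.deq_dim A B hAB).symm
  have hmem : (p, q) ∈ S := by
    refine Finset.mem_filter.2 ⟨Finset.mem_product.2 ⟨Finset.mem_range.2 ?_,
      Finset.mem_range.2 ?_⟩, rfl⟩
    · show p < T.dim A + 1
      omega
    · show q < T.dim A + 1
      omega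
  have h2 : ∑ z ∈ S, ((T.h A z.1 z.2 : ZMod 2) - T.h B z.1 z.2) = 0 := by
    rw [Finset.sum_sub_distrib, sub_eq_zero]
    exact_mod_cast congrArg (fun k : ℕ => (k : ZMod 2)) h1
  have h3 : ∑ z ∈ S.erase (p, q), ((T.h A z.1 z.2 : ZMod 2) - T.h B z.1 z.2) = 0 := by
    refine Finset.sum_involution (fun z _ => (T.dim A - z.2, T.dim A - z.1)) ?_ ?_ ?_ ?_
    · intro z hz
      have hz2 := (Finset.mem_filter.1 (Finset.mem_of_mem_erase hz)).1
      rw [Finset.mem_product, Finset.mem_range, Finset.mem_range] at hz2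
      have e1 : T.h A z.1 z.2 = T.h A (T.dim A - z.2) (T.dim A - z.1) := by
        rw [T.symm A z.1 z.2]
        exact T.serre A _ _ (by omega) (by omega)
      have e2 : T.h B z.1 z.2 = T.h B (T.dim A - z.2) (T.dim A - z.1) := by
        rw [T.symm B z.1 z.2, ← hdim]
        exact T.serre B _ _ (by omega) (by omega)
      rw [e1, e2]
      exact CharTwo.add_self_eq_zero _
    · intro z hz _ heq
      have hz1 := Finset.ne_of_mem_erase hz
      have hz2 := Finset.mem_filter.1 (Finset.mem_of_mem_erase hz)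
      rw [Finset.mem_product, Finset.mem_range, Finset.mem_range] at hz2
      have h4 := congrArg Prod.fst heq
      simp only at h4
      apply hz1
      ext
      · show z.1 = p
        omega
      · show z.2 = q
        omega
    · intro z hz
      have hz1 := Finset.ne_of_mem_erase hz
      have hz2 := Finset.mem_filter.1 (Finset.mem_of_mem_erase hz)
      rw [Finset.mem_product, Finset.mem_range, Finset.mem_range] at hz2
      refine Finset.mem_erase.2 ⟨?_, ?_⟩
      · intro heq
        have h4 := congrArg Prod.fst heq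
        have h5 := congrArg Prod.snd heq
        simp only at h4 h5
        apply hz1
        ext
        · show z.1 = p
          omega
        · show z.2 = q
          omega
      · simp only [hS, Finset.mem_filter, Finset.mem_product, Finset.mem_range]
        omega
    · intro z hz
      have hz2 := Finset.mem_filter.1 (Finset.mem_of_mem_erase hz)
      rw [Finset.mem_product, Finset.mem_range, Finset.mem_range] at hz2
      ext
      · show T.dim A - (T.dim A - z.1) = z.1
        omega
      · show T.dim A - (T.dim A - z.2) = z.2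
        omega
  rw [← Finset.add_sum_erase S _ hmem, h3, add_zero, sub_eq_zero] at h2
  exact (ZMod.natCast_eq_natCast_iff _ _ _).1 h2

end AllVarieties

end Pool.Agent.U152.HN
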